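import Pool.Agent.Work.MP_9d1ffa_al.GN.Main

/-! A class of groups closed under the inheritance rules of the Farrell-Jones conjecture contains
every group that is linear over a commutative ring modulo a solvable normal subgroup. -/

namespace Pool.Agent.Results.MP_9d1ffa_al.GLn

open Pool.Agent.Work.MP_9d1ffa_al.GN

theorem result (P : (G : Type) → [Group G] → Prop) (hP : Closed P) (n : ℕ) (R : Type)
    [CommRing R] (G : Type) [Group G] (φ : G →* GL (Fin n) R) (hφ : Group.IsSolvable φ.ker) :
    P G :=
  hP.of_ker φ (hP.gln hmain n R) hφ

end Pool.Agent.Results.MP_9d1ffa_al.GLn
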