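import Pool.Agent.Work.MP_9d1ffa_al.LL.AbH

/-! The even Wall groups of all Laurent extensions of the obstruction category of a free action
vanish for every torsion free group with a subgroup of finite index that is linear over a
commutative ring modulo a central subgroup. -/

namespace Pool.Agent.Results.MP_9d1ffa_al.LAbs

open Pool.Agent.Work.MP_9d1ffa_al

theorem result (G : Type) [Group G] (tf : ∀ g : G, IsOfFinOrder g → g = 1) (H : Subgroup G)
    (hH : H.FiniteIndex) (R : Type) [CommRing R] (n : ℕ) (π : H →* GL (Fin n) R)
    (hπ : π.ker ≤ Subgroup.center H) : Van G :=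
  Ct.LL.abs_final VN.gpz G tf H hH R n π hπ

end Pool.Agent.Results.MP_9d1ffa_al.LAbs
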