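import Pool.Agent.Work.MP_9d1ffa_al.Gd.Tpd
import Pool.Agent.Work.MP_9d1ffa_al.Cu.FinK

/-! The Whitehead group of `G × ℤ ^ j` vanishes for every torsion free group `G` in the class of
hierarchies of actions on CAT(0) complexes over linear groups and two-dimensional Artin groups. -/

namespace Pool.Agent.Results.MP_9d1ffa_al.WhCat

open Pool.Agent.Work.MP_9d1ffa_al

theorem result (G : Type) [Group G] (tf : ∀ g : G, IsOfFinOrder g → g = 1) (hG : Hd G) (j k : ℕ)
    (A : GL (Fin k) (MonoidAlgebra ℤ (G × Multiplicative (Fin j → ℤ)))) :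
    ∃ m : ℕ, Matrix.fromBlocks A.1 0 0 1 ∈ Submonoid.closure
      {B : Matrix (Fin k ⊕ Fin m) (Fin k ⊕ Fin m)
          (MonoidAlgebra ℤ (G × Multiplicative (Fin j → ℤ))) |
        (∃ a b r, a ≠ b ∧ B = 1 + Matrix.single a b r) ∨
        ∃ (g : Fin k ⊕ Fin m → G × Multiplicative (Fin j → ℤ)) (ε : Fin k ⊕ Fin m → ℤˣ),
          B = Matrix.diagonal fun a => MonoidAlgebra.single (g a) (ε a : ℤ)} := by
  obtain ⟨m, h⟩ := WL.whGen_of (Gd.w_hd Cu.wg_whK hG tf) j k A.1 A.isUnit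
  refine ⟨m, Submonoid.closure_mono ?_ h⟩
  rintro B (h | h | ⟨H, h, -⟩)
  exacts [Or.inl h, Or.inr h, h.elim]

end Pool.Agent.Results.MP_9d1ffa_al.WhCat
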