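import Pool.Agent.Work.MP_9d1ffa_al.Ga.Top
import Pool.Agent.Work.MP_9d1ffa_al.Ga.Fin

/-! The Whitehead group of `G × ℤ ^ j` vanishes for every group `G` that acts freely on a lattice
and commutes with a cofinal increasing automorphism of finite height. -/

namespace Pool.Agent.Results.MP_9d1ffa_al.WhGarside

open Pool.Agent.Work.MP_9d1ffa_al

theorem result (G L : Type) [Group G] [Lattice L] [Nonempty L] (ρ : G →* L ≃o L) (τ : L ≃o L)
    (n : ℕ) (comm : ∀ g x, ρ g (τ x) = τ (ρ g x)) (free : ∀ g x, ρ g x = x → g = 1)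
    (lt : ∀ x, x < τ x)
    (ht : ∀ (x : L) (C : Set L), IsChain (· ≤ ·) C → C ⊆ Set.Icc x (τ x) → C.encard ≤ (n + 1 : ℕ))
    (cof : ∀ x y, ∃ k : ℕ, y ≤ τ^[k] x) (j k : ℕ)
    (A : GL (Fin k) (MonoidAlgebra ℤ (G × Multiplicative (Fin j → ℤ)))) :
    ∃ m : ℕ, Matrix.fromBlocks A.1 0 0 1 ∈ Submonoid.closure
      {B : Matrix (Fin k ⊕ Fin m) (Fin k ⊕ Fin m)
          (MonoidAlgebra ℤ (G × Multiplicative (Fin j → ℤ))) |
        (∃ a b r, a ≠ b ∧ B = 1 + Matrix.single a b r) ∨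
        ∃ (g : Fin k ⊕ Fin m → G × Multiplicative (Fin j → ℤ)) (ε : Fin k ⊕ Fin m → ℤˣ),
          B = Matrix.diagonal fun a => MonoidAlgebra.single (g a) (ε a : ℤ)} := by
  obtain ⟨X, Sm, _, _, _, Γ, hZ, hG⟩ := Ga.exists_geo ρ τ n comm free lt ht cof
  obtain ⟨m, h⟩ := Ga.Geo.wh hZ hG (Ga.lat_tf ρ free) j k A.1 A.isUnit
  refine ⟨m, Submonoid.closure_mono ?_ h⟩
  rintro B (h | h | ⟨H, h, -⟩)
  exacts [Or.inl h, Or.inr h, h.elim]

end Pool.Agent.Results.MP_9d1ffa_al.WhGarside
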